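import Pool.Agent.H15.TG.Targets

/-!
# Row TR1 of the board `tga_modules` (MP_51eb24_ag)
-/

set_option autoImplicit false

namespace Pool.Agent.H35.TG

open MvPolynomial Pool.Agent.H2.ST Pool.Agent.H15.TG

theorem imod_bot_iff {k : Type} [Field k] {A ι : Type} [CommRing A] [Algebra k A] (y : ι → A) :
    Imod k (⊥ : Ideal A) y ↔ AlgebraicIndependent k y := by
  unfold Imod
  constructor
  · intro h
    apply (injective_iff_map_eq_zero _).2
    intro P hP
    exact h P (by rw [Ideal.mem_bot]; exact hP)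
  · intro h P hP
    rw [Ideal.mem_bot] at hP
    exact (injective_iff_map_eq_zero (aeval y : MvPolynomial ι k →ₐ[k] A)).1 h P hP

theorem pf_TR1 (hAI1 : T_AI1) : T_TR1 := by
  intro k _ _ _ m d W K H f hF ι _ F hFi hAI
  obtain ⟨z, hzK, hz⟩ : ∃ z ∈ K, br f z ≠ 0 := by
    by_contra hcon
    push Not at hcon
    obtain ⟨c, hc⟩ := hF.cn f hF.fK (fun g hg => by rw [hcon g hg]; exact dvd_zero _)
    have h0 := hF.fc0
    rw [hc, constantCoeff_C] at h0
    apply hF.fn
    rw [hc, h0, map_zero]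
  have h1 := hAI1 k (Pol k m) ι Unit ⊥ F (fun _ => z) (fun _ => ad f) Ideal.isPrime_bot
    (by
      intro _ x hx
      rw [Ideal.mem_bot] at hx ⊢
      rw [hx, map_zero])
    (by
      intro _ j
      rw [Ideal.mem_bot, ad_apply]
      exact (mem_Cf.1 (hFi j)).2)
    (by
      rw [Ideal.mem_bot, Matrix.det_unique, Matrix.of_apply, ad_apply]
      exact hz)
    ((imod_bot_iff F).2 hAI)
  rw [imod_bot_iff] at h1
  have h2 := hF.tr (ι ⊕ Unit) _ (by
    rintro (i | i)
    · exact (mem_Cf.1 (hFi i)).1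
    · exact hzK) h1
  rw [Fintype.card_sum, Fintype.card_unit] at h2
  omega

end Pool.Agent.H35.TG
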