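import Pool.Agent.H15.TG.Targets
import Pool.Agent.H4.TG.ZLF
import Pool.Agent.H2.ST.Split

/-!
# ZHQ: the quadratic part of the moment map
-/

set_option autoImplicit false

namespace Pool.Agent.H35.TG

open MvPolynomial Pool.Agent.H2.ST Pool.Agent.H15.TG

section

variable {k : Type} [Field k] {m : ℕ}

/-- membership in a power of the maximal ideal from the derivatives -/
theorem mo_of_pd [CharZero k] {N : ℕ} {f : Pol k m} (h0 : constantCoeff f = 0)
    (h : ∀ s, pderiv s f ∈ mo k m ^ N) : f ∈ mo k m ^ (N + 1) := by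
  rw [Pool.Agent.H4.TG.mem_mo_pow]
  intro x hx
  by_cases hx0 : x = 0
  · rw [hx0]; exact h0
  · obtain ⟨s, hs⟩ : ∃ s, x s ≠ 0 := by
      by_contra hcon
      push Not at hcon
      exact hx0 (Finsupp.ext hcon)
    have h2 : x - Finsupp.single s 1 + Finsupp.single s 1 = x := by
      apply tsub_add_cancel_of_le
      rw [Finsupp.single_le_iff]
      omega
    have h3 := (Pool.Agent.H4.TG.mem_mo_pow.1 (h s)) (x - Finsupp.single s 1) (by
      have h4 := congrArg Finsupp.degree h2
      rw [map_add, Finsupp.degree_single] at h4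
      omega)
    rw [coeff_pderiv, h2] at h3
    rcases mul_eq_zero.1 h3 with h5 | h5
    · exact h5
    · exfalso
      have : (((((x - Finsupp.single s 1 : (Fin m ⊕ Fin m) →₀ ℕ) s) + 1 : ℕ)) : k) = 0 := by
        push_cast; exact h5
      exact absurd (Nat.cast_eq_zero.1 this) (by omega)

/-- vanishing of the constant terms of the derivatives -/
theorem cc_pd_sq {f : Pol k m} (h : f ∈ mo k m ^ 2) (s : Fin m ⊕ Fin m) :
    constantCoeff (pderiv s f) = 0 := by
  rw [Pool.Agent.H20.ST2.cc_pd]
  exact (Pool.Agent.H4.TG.mem_mo_pow.1 h) _ (by rw [Finsupp.degree_single]; omega)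

theorem cc_sq {f : Pol k m} (h : f ∈ mo k m ^ 2) : constantCoeff f = 0 := by
  exact (Pool.Agent.H4.TG.mem_mo_pow.1 h) 0 (by simp)

/-- the gradient vanishes if all brackets with the coordinates vanish at the origin -/
theorem grad_zero {Γ : Type} [AddCommGroup Γ] {W : Γ → Submodule k (Pol k m)}
    {y : Fin m ⊕ Fin m → Pol k m} {w : Fin m → Γ} (hA : Ada W y w) {f : Pol k m}
    (h : ∀ s, constantCoeff (br f (y s)) = 0) (s : Fin m ⊕ Fin m) :
    constantCoeff (pderiv s f) = 0 := by
  have h1 : (fun s => constantCoeff (pderiv s f)) = (0 : Fin m ⊕ Fin m → k) := by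
    apply pair_inj hA
    rw [map_zero]
    funext t
    rw [pair_grad, h t]
    rfl
  exact congrFun h1 s

/-- second order vanishing from brackets in the square of the maximal ideal -/
theorem mo3_of_br [CharZero k] {Γ : Type} [AddCommGroup Γ] {W : Γ → Submodule k (Pol k m)}
    {y : Fin m ⊕ Fin m → Pol k m} {w : Fin m → Γ} (hA : Ada W y w) {f : Pol k m}
    (h0 : constantCoeff f = 0) (h : ∀ s, br f (y s) ∈ mo k m ^ 2) : f ∈ mo k m ^ 3 := by
  have hg : ∀ s, constantCoeff (pderiv s f) = 0 := grad_zero hA fun s => cc_sq (h s)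
  have hb : ∀ g : Pol k m, constantCoeff (br f g) = 0 := by
    intro g
    rw [Pool.Agent.H2.ST.cc_br]
    exact Finset.sum_eq_zero fun i _ => by rw [hg, hg]; ring
  have hg2 : ∀ t s, constantCoeff (pderiv s (pderiv t f)) = 0 := by
    intro t
    refine grad_zero hA fun s => ?_
    have h1 := cc_pd_sq (h s) t
    rw [pd_br, map_add, hb, add_zero] at h1
    exact h1
  refine mo_of_pd h0 fun s => ?_
  refine mo_of_pd (hg s) fun t => ?_
  rw [pow_one, Pool.Agent.H20.ST2.mem_mo]
  exact hg2 s t

end

theorem pf_ZHQ (_hZLF : T_ZLF) : T_ZHQ := by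
  classical
  intro k _ _ m Γ _ W y w p H hP hA hH hb
  have hy : ∀ s, y s ∈ mo k m := fun s => Pool.Agent.H20.ST2.mem_mo.2 (hA.hz s)
  refine mo3_of_br hA ?_ ?_
  · rw [map_add, hH, zero_add, map_sum]
    refine Finset.sum_eq_zero fun i _ => ?_
    rw [smul_eq_C_mul, map_mul, map_mul, hA.hz]
    ring
  · intro s
    rw [add_br, sum_br]
    rcases s with j | j
    · have e : br H (y (Sum.inl j)) + ∑ i, br (p (w i) • (y (Sum.inl i) * y (Sum.inr i))) (y (Sum.inl j))
          = ∑ i, C (p (w i)) * (y (Sum.inl i) *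
            (br (y (Sum.inr i)) (y (Sum.inl j)) + C (if i = j then 1 else 0)) +
            y (Sum.inr i) * br (y (Sum.inl i)) (y (Sum.inl j))) := by
        have e1 : br H (y (Sum.inl j)) = ∑ i, C (p (w i)) * (y (Sum.inl i) *
            C (if i = j then 1 else 0)) := by
          rw [hb _ _ (hA.hl j), Finset.sum_eq_single j]
          · rw [if_pos rfl, C_1, mul_one, smul_eq_C_mul]
          · intro b _ hbj
            rw [if_neg hbj, C_0, mul_zero, mul_zero]
          · intro h; exact absurd (Finset.mem_univ _) h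
        rw [e1, ← Finset.sum_add_distrib]
        refine Finset.sum_congr rfl fun i _ => ?_
        rw [smul_br, mul_br, smul_eq_C_mul]
        ring
      rw [e]
      refine Ideal.sum_mem _ fun i _ => Ideal.mul_mem_left _ _ ?_
      rw [pow_two]
      refine Ideal.add_mem _ (Ideal.mul_mem_mul (hy _) ?_) (Ideal.mul_mem_mul (hy _) ?_)
      · rw [Pool.Agent.H20.ST2.mem_mo, map_add, br_anti, map_neg, hA.lr, constantCoeff_C]
        by_cases hij : i = j
        · rw [if_pos hij, if_pos hij.symm]; ring
        · rw [if_neg hij, if_neg (Ne.symm hij)]; ring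
      · rw [Pool.Agent.H20.ST2.mem_mo, hA.ll]
    · have e : br H (y (Sum.inr j)) + ∑ i, br (p (w i) • (y (Sum.inl i) * y (Sum.inr i))) (y (Sum.inr j))
          = ∑ i, C (p (w i)) * (y (Sum.inl i) * br (y (Sum.inr i)) (y (Sum.inr j)) +
            y (Sum.inr i) *
            (br (y (Sum.inl i)) (y (Sum.inr j)) - C (if i = j then 1 else 0))) := by
        have e1 : br H (y (Sum.inr j)) = ∑ i, - (C (p (w i)) * (y (Sum.inr i) *
            C (if i = j then 1 else 0))) := by
          rw [hb _ _ (hA.hr j), Finset.sum_eq_single j]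
          · rw [if_pos rfl, C_1, mul_one, smul_eq_C_mul, map_neg, C_neg]
            ring
          · intro b _ hbj
            rw [if_neg hbj, C_0, mul_zero, mul_zero, neg_zero]
          · intro h; exact absurd (Finset.mem_univ _) h
        rw [e1, ← Finset.sum_add_distrib]
        refine Finset.sum_congr rfl fun i _ => ?_
        rw [smul_br, mul_br, smul_eq_C_mul]
        ring
      rw [e]
      refine Ideal.sum_mem _ fun i _ => Ideal.mul_mem_left _ _ ?_
      rw [pow_two]
      refine Ideal.add_mem _ (Ideal.mul_mem_mul (hy _) ?_) (Ideal.mul_mem_mul (hy _) ?_)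
      · rw [Pool.Agent.H20.ST2.mem_mo, hA.rr]
      · rw [Pool.Agent.H20.ST2.mem_mo, map_sub, hA.lr, constantCoeff_C, sub_self]

end Pool.Agent.H35.TG
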